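import Pool.Agent.MFM.Main

/-!
Clutters all of whose elements lie in complementary pairs: basic facts about violations of
the max-flow min-cut property.
-/

namespace Pool.Agent.CUB

open Finset Pool.Agent.MFM

set_option linter.unusedSectionVars false

variable {E : Type*} [DecidableEq E] [Fintype E]

/-- `s` is an involution without fixed points, and every member of `C` contains exactly one of
`e`, `s e`, for every element `e`. -/
structure Paired (C : Finset (Finset E)) (s : E → E) : Prop where
  invol : ∀ e, s (s e) = e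
  ne : ∀ e, s e ≠ e
  mem : ∀ A ∈ C, ∀ e, e ∈ A ↔ s e ∉ A

/-- All covers have weight at least `k`, and no packing has `k` members. -/
def Bad (C : Finset (Finset E)) (w : E → ℕ) (k : ℕ) : Prop :=
  (∀ B, IsCover C B → k ≤ wt w B) ∧ ¬ ∃ P, IsPacking C w P ∧ Multiset.card P = k

variable {C : Finset (Finset E)} {s : E → E}

/-- Deletion minors. -/
theorem del_pack (hmin : MinNonMFMC C) {w : E → ℕ} {k : ℕ}
    (hk : ∀ B, IsCover C B → k ≤ wt w B) {e : E} (he : w e = 0) :
    ∃ P, IsPacking C w P ∧ Multiset.card P = k := by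
  by_contra hno
  have := pos_of_min (fun e => del_of_min hmin e) hk hno e
  omega

/-- Contraction minors. -/
theorem con_pack (hmin : MinNonMFMC C) {w : E → ℕ} {k : ℕ} {e : E}
    (hk : ∀ B, IsCover C B → e ∉ B → k ≤ wt w B) :
    ∃ P : Multiset (Finset E), (∀ A ∈ P, A ∈ C) ∧ Multiset.card P = k ∧
      ∀ f, f ≠ e → tot P f ≤ w f := by
  classical
  by_contra hno
  let w' : E → ℕ := fun f => if f = e then w e + k else w f
  have hw' : ∀ f, f ≠ e → w' f = w f := fun f hf => by simp only [w', if_neg hf]
  have h1 : ∀ B, IsCover C B → k ≤ wt w' B := by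
    intro B hB
    by_cases heB : e ∈ B
    · unfold wt
      have h2 : w' e ≤ ∑ f ∈ B, w' f := Finset.single_le_sum (fun _ _ => Nat.zero_le _) heB
      have h3 : w' e = w e + k := by simp only [w', if_true]
      omega
    · refine (hk B hB heB).trans (le_of_eq ?_)
      unfold wt
      refine Finset.sum_congr rfl (fun f hf => ?_)
      rw [hw' f]
      rintro rfl
      exact heB hf
  have h2 : ¬ ∃ P, IsPacking C w' P ∧ Multiset.card P = k := by
    rintro ⟨P, hP, hc⟩
    refine hno ⟨P, hP.1, hc, fun f hf => ?_⟩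
    rw [← hw' f hf]
    exact hP.2 f
  have h3 := lt_of_min (fun e => con_of_min hmin e) h1 h2 e
  have h4 : w' e = w e + k := by simp only [w', if_true]
  omega

theorem tot_pair (hp : Paired C s) {P : Multiset (Finset E)} (hP : ∀ A ∈ P, A ∈ C) (f : E) :
    tot P f + tot P (s f) = Multiset.card P := by
  induction P using Multiset.induction_on with
  | empty => simp [tot_zero]
  | cons A P ih =>
    have h1 := ih (fun B hB => hP B (Multiset.mem_cons_of_mem hB))
    rw [tot_cons, tot_cons, Multiset.card_cons]
    have h2 := hp.mem A (hP A (Multiset.mem_cons_self A P)) f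
    unfold ind
    by_cases hf : f ∈ A
    · rw [if_pos hf, if_neg (h2.mp hf)]
      omega
    · have h3 : s f ∈ A := by
        by_contra h4
        exact hf (h2.mpr h4)
      rw [if_neg hf, if_pos h3]
      omega

theorem pair_cover (hp : Paired C s) (f : E) : IsCover C {f, s f} := by
  intro A hA
  have h2 := hp.mem A hA f
  by_cases hf : f ∈ A
  · exact ⟨f, by simp [hf]⟩
  · have h3 : s f ∈ A := by
      by_contra h4
      exact hf (h2.mpr h4)
    exact ⟨s f, by simp [h3]⟩

theorem wt_pair (hp : Paired C s) (w : E → ℕ) (f : E) : wt w {f, s f} = w f + w (s f) := by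
  unfold wt
  rw [Finset.sum_pair (hp.ne f).symm]

theorem wt_le_of_subset (w : E → ℕ) {A B : Finset E} (h : A ⊆ B) : wt w A ≤ wt w B :=
  Finset.sum_le_sum_of_subset h

/-- Exchange of a complementary pair between two covers. -/
theorem cover_exchange (hp : Paired C s) {T T' : Finset E} {e : E} (hT : IsCover C T)
    (hT' : IsCover C T') : IsCover C (T.erase e ∪ T'.erase (s e)) := by
  intro A hA
  by_cases he : e ∈ A
  · obtain ⟨f, hf⟩ := hT' A hA
    rw [Finset.mem_inter] at hf
    refine ⟨f, Finset.mem_inter.mpr ⟨hf.1, Finset.mem_union_right _ ?_⟩⟩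
    refine Finset.mem_erase.mpr ⟨?_, hf.2⟩
    rintro rfl
    exact (hp.mem A hA e).mp he hf.1
  · obtain ⟨f, hf⟩ := hT A hA
    rw [Finset.mem_inter] at hf
    refine ⟨f, Finset.mem_inter.mpr ⟨hf.1, Finset.mem_union_left _ ?_⟩⟩
    refine Finset.mem_erase.mpr ⟨?_, hf.2⟩
    rintro rfl
    exact he hf.1

/-- A violation with all pair sums equal to `k`. -/
structure Hole (C : Finset (Finset E)) (s : E → E) (w : E → ℕ) (k : ℕ) : Prop where
  sum : ∀ f, w f + w (s f) = k
  cov : ∀ B, IsCover C B → k ≤ wt w B
  no : ¬ ∃ P, IsPacking C w P ∧ Multiset.card P = k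

theorem Hole.bad {w : E → ℕ} {k : ℕ} (h : Hole C s w k) : Bad C w k := ⟨h.cov, h.no⟩

/-- In a hole every cover containing `e` but not `s e` has weight more than `k`. -/
theorem Hole.slack (hmin : MinNonMFMC C) (hp : Paired C s) {w : E → ℕ} {k : ℕ}
    (h : Hole C s w k) {T : Finset E} (hT : IsCover C T) {e : E} (he : e ∈ T) (hse : s e ∉ T) :
    k + 1 ≤ wt w T := by
  obtain ⟨P, hP, hc, hx⟩ := con_pack hmin (w := w) (k := k) (e := s e) (fun B hB _ => h.cov B hB)
  have h1 := tot_pair hp hP e
  have h2 := h.sum e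
  have h3 : tot P e ≤ w e := hx e (fun h4 => hp.ne e h4.symm)
  have h4 : tot P e ≠ w e := by
    intro h5
    refine h.no ⟨P, ⟨hP, fun f => ?_⟩, hc⟩
    by_cases hf : f = s e
    · subst hf
      show tot P (s e) ≤ w (s e)
      omega
    · exact hx f hf
  have h5 : wt (tot P + ind {e}) T ≤ wt w T := by
    unfold wt
    refine Finset.sum_le_sum (fun f hf => ?_)
    show tot P f + ind {e} f ≤ w f
    by_cases hfe : f = e
    · subst hfe
      have : ind ({f} : Finset E) f = 1 := ind_apply_mem (Finset.mem_singleton_self f)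
      omega
    · have : ind ({e} : Finset E) f = 0 := ind_apply_not_mem (by simpa using hfe)
      have h6 : f ≠ s e := by
        rintro rfl
        exact hse hf
      have := hx f h6
      omega
  have h6 : wt (tot P) T + 1 ≤ wt (tot P + ind {e}) T := by
    rw [wt_add, wt_ind]
    have : ({e} ∩ T).card = 1 := by
      rw [Finset.singleton_inter_of_mem he, Finset.card_singleton]
    omega
  have h7 := wt_tot (F := C) hT P hP
  omega

end Pool.Agent.CUB
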