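import Pool.Agent.CUB.Hole

namespace Pool.Agent.CUB

open Finset Pool.Agent.MFM

set_option linter.unusedSectionVars false

variable {E : Type*} [DecidableEq E] [Fintype E]
variable {C : Finset (Finset E)} {s : E → E}

/-- `w` plus `j` times the indicator of `V`. -/
def up (w : E → ℕ) (V : Finset E) (j : ℕ) : E → ℕ := fun f => w f + j * ind V f

theorem up_zero (w : E → ℕ) (V : Finset E) : up w V 0 = w := by
  funext f
  simp [up]

theorem up_succ (w : E → ℕ) (V : Finset E) (j : ℕ) (f : E) :
    up w V (j + 1) f = up w V j f + ind V f := by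
  unfold up
  rw [Nat.add_mul, Nat.one_mul, Nat.add_assoc]

theorem up_mem (w : E → ℕ) {V : Finset E} (j : ℕ) {f : E} (hf : f ∈ V) :
    up w V j f = w f + j := by
  unfold up
  rw [ind_apply_mem hf, Nat.mul_one]

theorem up_not_mem (w : E → ℕ) {V : Finset E} (j : ℕ) {f : E} (hf : f ∉ V) :
    up w V j f = w f := by
  unfold up
  rw [ind_apply_not_mem hf, Nat.mul_zero, Nat.add_zero]

theorem up_le (w : E → ℕ) (V : Finset E) (j : ℕ) : up w V j ≤ up w V (j + 1) := by
  intro f
  rw [up_succ]
  exact Nat.le_add_right _ _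

theorem up_sum {w : E → ℕ} {g : ℕ} (hsum : ∀ f, w f + w (s f) = g) {V : Finset E}
    (hV : Sec s V) (j : ℕ) (f : E) : up w V j f + up w V j (s f) = g + j := by
  have h1 := hV.ind_add f
  have h2 := hsum f
  have h3 : j * ind V f + j * ind V (s f) = j := by rw [← Nat.mul_add, h1, Nat.mul_one]
  unfold up
  omega

/-- Replace the part `A` of `P`. -/
theorem reduce {V : Finset E} {P A Q : Multiset (Finset E)} (hP : ∀ M ∈ P, M ∈ C) (hA : A ≤ P)
    {x : E → ℕ} (hx : ∀ f, x f + ind V f ≤ tot A f) (hQ : IsPacking C x Q) :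
    ∃ Q' : Multiset (Finset E), (∀ M ∈ Q', M ∈ C) ∧
      Multiset.card Q' + Multiset.card A = Multiset.card Q + Multiset.card P ∧
      ∀ f, tot Q' f + ind V f ≤ tot P f := by
  obtain ⟨R, rfl⟩ := Multiset.le_iff_exists_add.mp hA
  refine ⟨Q + R, ?_, ?_, ?_⟩
  · intro M hM
    rcases Multiset.mem_add.mp hM with h | h
    · exact hQ.1 M h
    · exact hP M (Multiset.mem_add.mpr (Or.inr h))
  · rw [Multiset.card_add, Multiset.card_add]
    omega
  · intro f
    rw [tot_add, tot_add]
    have h1 := hx f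
    have h2 : tot Q f ≤ x f := hQ.2 f
    omega

/-- The covers gain weight when a hole is raised. -/
theorem Hole.cov_up (hmin : MinNonMFMC C) (hp : Paired C s) {w : E → ℕ} {V : Finset E}
    (hV : Sec s V) {g j : ℕ} (hg : 0 < g) (hsum : ∀ f, w f + w (s f) = g)
    (h : Hole C s (up w V j) (g + j)) {B : Finset E} (hB : IsCover C B) :
    g + (j + 1) ≤ wt (up w V (j + 1)) B := by
  have h1 := h.cov B hB
  have hne : B.Nonempty := by
    by_contra h2
    rw [Finset.not_nonempty_iff_eq_empty] at h2
    subst h2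
    have h3 : wt (up w V j) ∅ = 0 := Finset.sum_empty
    omega
  by_cases h2 : ∃ e ∈ B, s e ∉ B
  · obtain ⟨e, he, hse⟩ := h2
    have h3 := h.slack hmin hp hB he hse
    have h4 := wt_mono (up_le w V j) B
    omega
  · push Not at h2
    obtain ⟨e, he⟩ := hne
    have h3 := h2 e he
    have h4 : wt (up w V (j + 1)) {e, s e} ≤ wt (up w V (j + 1)) B := by
      refine wt_le_of_subset _ ?_
      intro x hx
      rw [Finset.mem_insert, Finset.mem_singleton] at hx
      rcases hx with rfl | rfl
      · exact he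
      · exact h3
    rw [wt_pair hp, up_sum hsum hV] at h4
    exact h4

/-- Weight of a cover after removing a section. -/
theorem wt_sub_sec {x y : E → ℕ} {V : Finset E} (h : ∀ f, x f + ind V f = y f) (T : Finset E) :
    wt x T + (V ∩ T).card = wt y T := by
  have h1 : x + ind V = y := funext h
  rw [← h1, wt_add, wt_ind]

theorem two_le_wt (x : E → ℕ) {T : Finset E} {f h : E} (hf : f ∈ T) (hh : h ∈ T) (hne : f ≠ h) :
    x f + x h ≤ wt x T := by
  have h1 : wt x {f, h} ≤ wt x T := by
    refine wt_le_of_subset _ ?_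
    intro y hy
    rw [Finset.mem_insert, Finset.mem_singleton] at hy
    rcases hy with rfl | rfl
    · exact hf
    · exact hh
  have h2 : wt x {f, h} = x f + x h := by
    unfold wt
    rw [Finset.sum_pair hne]
  omega

theorem three_le_wt (x : E → ℕ) {T : Finset E} {f h l : E} (hf : f ∈ T) (hh : h ∈ T)
    (hl : l ∈ T) (h1 : f ≠ h) (h2 : f ≠ l) (h3 : h ≠ l) : x f + x h + x l ≤ wt x T := by
  have h4 := two_le_wt x (T := T.erase f) (Finset.mem_erase.mpr ⟨h1.symm, hh⟩)
    (Finset.mem_erase.mpr ⟨h2.symm, hl⟩) h3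
  have h5 : x f + wt x (T.erase f) = wt x T := Finset.add_sum_erase T x hf
  omega

end Pool.Agent.CUB
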