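import Pool.Agent.CUB.Even

namespace Pool.Agent.CUB

open Finset Pool.Agent.MFM

set_option linter.unusedSectionVars false

variable {E : Type*} [DecidableEq E] [Fintype E]
variable {C : Finset (Finset E)} {s : E → E}

/-- The elements of `V` of weight exactly one half. -/
def halves (w : E → ℕ) (g : ℕ) (V : Finset E) : Finset E := V.filter (fun f => 2 * w f = g)

theorem mem_halves {w : E → ℕ} {g : ℕ} {V : Finset E} {f : E} :
    f ∈ halves w g V ↔ f ∈ V ∧ 2 * w f = g := Finset.mem_filter

/-- The other members of the packing contain exactly one of the two heavy elements; in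
particular not both. -/
theorem Crit.danger' (hmin : MinNonMFMC C) (hp : Paired C s) {w : E → ℕ} {g : ℕ}
    (h : Crit C s w g) {V : Finset E} (hV : Sec s V) (hVw : ∀ f ∈ V, g ≤ 2 * w f)
    {P : Multiset (Finset E)} (hP : IsPacking C (up w V 1) P) (hc : Multiset.card P = g + 1)
    {M : Finset E} (hM : M ∈ P) :
    ∃ f l, f ≠ l ∧ f ∈ halves w g V ∧ l ∈ halves w g V ∧ f ∈ M ∧ l ∈ M ∧
      ∀ N ∈ P.erase M, ¬ (f ∈ N ∧ l ∈ N) := by
  have h3 := h.three
  obtain ⟨T, f, l, hT, hTM, hfT, hlT, hfl, hfV, hlV, hf, hl, hth, hoth⟩ :=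
    h.danger hmin hp hV hVw hP hc hM
  refine ⟨f, l, hfl, mem_halves.mpr ⟨hfV, hf⟩, mem_halves.mpr ⟨hlV, hl⟩, hTM hfT, hTM hlT, ?_⟩
  rintro N hN ⟨hfN, hlN⟩
  have htot : ∀ e, tot P e = up w V 1 e := tot_eq hp (up_sum h.hole.sum hV 1) hP hc
  obtain ⟨A, hA⟩ := Multiset.exists_cons_of_mem hM
  rw [hA, Multiset.erase_cons_head] at hN
  obtain ⟨B, hB⟩ := Multiset.exists_cons_of_mem hN
  rw [hB] at hA
  subst hA
  have hsplit : ∀ e, up w V 1 e = tot B e + ind N e + ind M e := by
    intro e
    rw [← htot e, tot_cons, tot_cons]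
  have hBf : tot B f + 1 = w f := by
    have h1 := hsplit f
    rw [up_mem w 1 hfV, ind_apply_mem hfN, ind_apply_mem (hTM hfT)] at h1
    omega
  have hBl : tot B l + 1 = w l := by
    have h1 := hsplit l
    rw [up_mem w 1 hlV, ind_apply_mem hlN, ind_apply_mem (hTM hlT)] at h1
    omega
  have hBt : ∀ t ∈ T, t ≠ f → t ≠ l → tot B t = 0 := by
    intro t ht h1 h2
    have h4 : t ∉ V := by
      intro h5
      rcases hth t ht h5 with h6 | h6
      · exact h1 h6
      · exact h2 h6
    have h5 := hsplit t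
    rw [up_not_mem w 1 h4, hoth t ht h4, ind_apply_mem (hTM ht)] at h5
    omega
  have hBC : ∀ D ∈ B, D ∈ C := fun D hD =>
    hP.1 D (Multiset.mem_cons_of_mem (Multiset.mem_cons_of_mem hD))
  have h1 : Multiset.card B ≤ wt (tot B) T := wt_tot (F := C) hT B hBC
  rw [Multiset.card_cons, Multiset.card_cons] at hc
  have h2 : wt (tot B) T = tot B f + tot B l := by
    have h4 : tot B f + wt (tot B) (T.erase f) = wt (tot B) T :=
      Finset.add_sum_erase T (tot B) hfT
    have h5 : tot B l + wt (tot B) ((T.erase f).erase l) = wt (tot B) (T.erase f) :=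
      Finset.add_sum_erase _ (tot B) (Finset.mem_erase.mpr ⟨hfl.symm, hlT⟩)
    have h6 : wt (tot B) ((T.erase f).erase l) = 0 := by
      unfold wt
      refine Finset.sum_eq_zero (fun t ht => ?_)
      rw [Finset.mem_erase, Finset.mem_erase] at ht
      exact hBt t ht.2.2 ht.2.1 ht.1
    omega
  omega

theorem Crit.halves_bound (hmin : MinNonMFMC C) (hp : Paired C s) {w : E → ℕ} {g : ℕ}
    (h : Crit C s w g) {V : Finset E} (hV : Sec s V) (hVw : ∀ f ∈ V, g ≤ 2 * w f)
    {P : Multiset (Finset E)} (hP : IsPacking C (up w V 1) P)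
    (hc : Multiset.card P = g + 1) : g + 1 ≤ (halves w g V).card.choose 2 := by
  classical
  have hex : ∀ M ∈ P, ∃ f l, f ≠ l ∧ f ∈ halves w g V ∧ l ∈ halves w g V ∧ f ∈ M ∧ l ∈ M ∧
      ∀ N ∈ P.erase M, ¬ (f ∈ N ∧ l ∈ N) := fun M hM => h.danger' hmin hp hV hVw hP hc hM
  haveI : Nonempty E := by
    obtain ⟨M, hM⟩ := Multiset.card_pos_iff_exists_mem.mp (show 0 < Multiset.card P by omega)
    exact ⟨(hex M hM).choose⟩
  choose! F L hFL hF hL hFM hLM hN using hex
  have hnodup : P.Nodup := by
    rw [Multiset.nodup_iff_count_le_one]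
    intro M
    by_contra h1
    push Not at h1
    have hM : M ∈ P := Multiset.count_pos.mp (by omega)
    have h2 : M ∈ P.erase M := by
      rw [← Multiset.count_pos, Multiset.count_erase_self]
      omega
    exact hN M hM M h2 ⟨hFM M hM, hLM M hM⟩
  have hcard : P.toFinset.card = g + 1 := by
    rw [Multiset.toFinset_card_of_nodup hnodup, hc]
  rw [← hcard, ← Finset.card_powersetCard]
  refine Finset.card_le_card_of_injOn (fun M => {F M, L M}) ?_ ?_
  · intro M hM
    have hM' := Multiset.mem_toFinset.mp (Finset.mem_coe.mp hM)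
    show ({F M, L M} : Finset E) ∈ _
    rw [Finset.mem_coe, Finset.mem_powersetCard]
    refine ⟨?_, Finset.card_pair (hFL M hM')⟩
    intro x hx
    rw [Finset.mem_insert, Finset.mem_singleton] at hx
    rcases hx with rfl | rfl
    · exact hF M hM'
    · exact hL M hM'
  · intro M hM N hN' heq
    have hM' := Multiset.mem_toFinset.mp (Finset.mem_coe.mp hM)
    have hN'' := Multiset.mem_toFinset.mp (Finset.mem_coe.mp hN')
    by_contra hne
    have heq' : ({F M, L M} : Finset E) = {F N, L N} := heq
    have h1 : ({F M, L M} : Finset E) ⊆ N := by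
      rw [heq']
      intro x hx
      rw [Finset.mem_insert, Finset.mem_singleton] at hx
      rcases hx with rfl | rfl
      · exact hFM N hN''
      · exact hLM N hN''
    have h2 : N ∈ P.erase M := (Multiset.mem_erase_of_ne (Ne.symm hne)).mpr hN''
    exact hN M hM' N h2 ⟨h1 (by simp), h1 (by simp)⟩

theorem Sec.card {V : Finset E} (hp : Paired C s) (hV : Sec s V) :
    Fintype.card E = 2 * V.card := by
  classical
  have h1 : Vᶜ = V.image s := by
    ext f
    rw [Finset.mem_compl, Finset.mem_image]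
    constructor
    · intro hf
      refine ⟨s f, ?_, hp.invol f⟩
      by_contra h2
      exact hf ((hV f).mpr h2)
    · rintro ⟨e, he, rfl⟩
      exact (hV e).mp he
  have hinj : Function.Injective s := by
    intro a b hab
    rw [← hp.invol a, hab, hp.invol]
  have h2 : Vᶜ.card = V.card := by
    rw [h1, Finset.card_image_of_injective _ hinj]
  have h3 := Finset.card_add_card_compl V
  omega

theorem Crit.card_bound (hmin : MinNonMFMC C) (hp : Paired C s) {w : E → ℕ} {g : ℕ}
    (h : Crit C s w g) (hpm : PotMin C s w g) :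
    4 ≤ g ∧ 2 * ((g + 1) ^ 2 + 4) ≤ Fintype.card E := by
  classical
  have h3 := h.three
  have heven := h.even hmin hp hpm
  obtain ⟨V, hV, hVw⟩ := exists_sec hp h.hole.sum
  obtain ⟨P, hP, hc⟩ := h.packing_up hmin hp hpm hV hVw
  have h1 := h.ones_bound hmin hp hV hVw hP hc
  have h2 := h.halves_bound hmin hp hV hVw hP hc
  have hg4 : 4 ≤ g := by
    obtain ⟨k, hk⟩ := heven
    omega
  have hh : 4 ≤ (halves w g V).card := by
    by_contra h4
    push Not at h4
    have h5 : (halves w g V).card ≤ 3 := by omega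
    have h6 := Nat.choose_le_choose 2 h5
    have h7 : Nat.choose 3 2 = 3 := rfl
    omega
  have hinj : Function.Injective s := by
    intro a b hab
    rw [← hp.invol a, hab, hp.invol]
  have h4 : (ones w).image s ∪ halves w g V ⊆ V := by
    intro f hf
    rcases Finset.mem_union.mp hf with h5 | h5
    · obtain ⟨e, he, rfl⟩ := Finset.mem_image.mp h5
      rw [mem_ones] at he
      by_contra h6
      have h7 : e ∈ V := (hV e).mpr h6
      have := hVw e h7
      omega
    · exact (mem_halves.mp h5).1
  have h5 : Disjoint ((ones w).image s) (halves w g V) := by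
    rw [Finset.disjoint_left]
    intro f hf1 hf2
    obtain ⟨e, he, rfl⟩ := Finset.mem_image.mp hf1
    rw [mem_ones] at he
    have h6 := (mem_halves.mp hf2).2
    have h7 := h.hole.sum e
    omega
  have h6 := Finset.card_le_card h4
  rw [Finset.card_union_of_disjoint h5, Finset.card_image_of_injective _ hinj] at h6
  have h7 := Sec.card hp hV
  refine ⟨hg4, ?_⟩
  rw [h7]
  have h8 : (g + 1) ^ 2 = (g + 1) * (g + 1) := by ring
  rw [h8]
  omega

end Pool.Agent.CUB
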