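import Pool.Agent.CUB.Climb

namespace Pool.Agent.CUB

open Finset Pool.Agent.MFM

set_option linter.unusedSectionVars false

variable {E : Type*} [DecidableEq E] [Fintype E]
variable {C : Finset (Finset E)} {s : E → E}

/-- A hole of the smallest level of a violation, this level being at least three. -/
structure Crit (C : Finset (Finset E)) (s : E → E) (w : E → ℕ) (g : ℕ) : Prop where
  hole : Hole C s w g
  low : ∀ w' k, Bad C w' k → g ≤ k
  three : 3 ≤ g

theorem Hole.pos (hmin : MinNonMFMC C) {w : E → ℕ} {g : ℕ} (h : Hole C s w g) (e : E) :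
    0 < w e :=
  pos_of_min (fun e => del_of_min hmin e) h.cov h.no e

/-- Below the smallest level of a violation there are packings. -/
theorem Crit.pack {w : E → ℕ} {g : ℕ} (h : Crit C s w g) {x : E → ℕ} {k : ℕ} (hk : k < g)
    (hx : ∀ B, IsCover C B → k ≤ wt x B) : ∃ P, IsPacking C x P ∧ Multiset.card P = k := by
  by_contra h1
  have := h.low x k ⟨hx, h1⟩
  omega

theorem ind_le_one (A : Finset E) (f : E) : ind A f ≤ 1 := by
  unfold ind
  split <;> omega

theorem mem_of_ind {A : Finset E} {f : E} (h : ind A f ≠ 0) : f ∈ A := by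
  by_contra h1
  exact h (ind_apply_not_mem h1)

/-- The structure of the packings of a raised critical hole. -/
theorem Crit.danger (hmin : MinNonMFMC C) (hp : Paired C s) {w : E → ℕ} {g : ℕ}
    (h : Crit C s w g) {V : Finset E} (hV : Sec s V) (hVw : ∀ f ∈ V, g ≤ 2 * w f)
    {P : Multiset (Finset E)} (hP : IsPacking C (up w V 1) P) (hc : Multiset.card P = g + 1)
    {M : Finset E} (hM : M ∈ P) :
    ∃ T f l, IsCover C T ∧ T ⊆ M ∧ f ∈ T ∧ l ∈ T ∧ f ≠ l ∧ f ∈ V ∧ l ∈ V ∧ 2 * w f = g ∧
      2 * w l = g ∧ (∀ t ∈ T, t ∈ V → t = f ∨ t = l) ∧ (∀ t ∈ T, t ∉ V → w t = 1) := by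
  have hpos := h.hole.pos hmin
  have h3 := h.three
  obtain ⟨A, rfl⟩ := Multiset.exists_cons_of_mem hM
  have htot : ∀ f, tot (M ::ₘ A) f = up w V 1 f :=
    tot_eq hp (k := g + 1) (up_sum h.hole.sum hV 1) hP hc
  have hAtot : ∀ f, tot A f + ind M f = w f + ind V f := by
    intro f
    have h1 := htot f
    rw [tot_cons] at h1
    rw [h1]
    have h2 := up_succ w V 0 f
    rw [up_zero] at h2
    exact h2
  rw [Multiset.card_cons] at hc
  have hAC : ∀ B ∈ A, B ∈ C := fun B hB => hP.1 B (Multiset.mem_cons_of_mem hB)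
  set x : E → ℕ := fun f => w f - ind M f with hx
  have hxw : ∀ f, x f + ind M f = w f := by
    intro f
    have h1 := hpos f
    have h2 := ind_le_one M f
    simp only [hx]
    omega
  have hxV : ∀ f, x f + ind V f = tot A f := by
    intro f
    have h1 := hxw f
    have h2 := hAtot f
    omega
  have hbad : ∃ T, IsCover C T ∧ wt x T < g - 1 := by
    by_contra h1
    push Not at h1
    obtain ⟨Q, hQ, hQc⟩ := h.pack (x := x) (k := g - 1) (by omega) h1
    obtain ⟨Q', hQ'1, hQ'2, hQ'3⟩ := reduce (V := V) hP.1 (Multiset.le_cons_self A M)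
      (fun f => (hxV f).le) hQ
    refine h.hole.no ⟨Q', ⟨hQ'1, fun f => ?_⟩, ?_⟩
    · show tot Q' f ≤ w f
      have h2 := hQ'3 f
      have h4 := htot f
      have h5 := up_succ w V 0 f
      rw [up_zero] at h5
      rw [h4] at h2
      have h6 : up w V 1 f = w f + ind V f := h5
      omega
    · rw [Multiset.card_cons] at hQ'2
      omega
  obtain ⟨T, hT, hTx⟩ := hbad
  have h1 := wt_sub_sec hxV T
  have h2 : Multiset.card A ≤ wt (tot A) T := wt_tot (F := C) hT A hAC
  have hcard : 1 < (V ∩ T).card := by omega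
  obtain ⟨f, hf, l, hl, hfl⟩ := Finset.one_lt_card.mp hcard
  rw [Finset.mem_inter] at hf hl
  have hxf := hVw f hf.1
  have hxl := hVw l hl.1
  have ef := hxw f
  have el := hxw l
  have if1 := ind_le_one M f
  have il1 := ind_le_one M l
  have h4 := two_le_wt x hf.2 hl.2 hfl
  have hthird : ∀ t ∈ T, t ∈ V → t = f ∨ t = l := by
    intro t ht htV
    by_contra h5
    push Not at h5
    have h6 := three_le_wt x hf.2 hl.2 ht hfl (Ne.symm h5.1) (Ne.symm h5.2)
    have h7 := hVw t htV
    have h8 := hxw t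
    have h9 := ind_le_one M t
    omega
  have hVT : (V ∩ T).card ≤ 2 := by
    have h5 : V ∩ T ⊆ {f, l} := by
      intro t ht
      rw [Finset.mem_inter] at ht
      rw [Finset.mem_insert, Finset.mem_singleton]
      exact hthird t ht.2 ht.1
    exact (Finset.card_le_card h5).trans Finset.card_le_two
  have hother : ∀ t ∈ T, t ≠ f → t ≠ l → x t = 0 := by
    intro t ht h5 h6
    have h7 := three_le_wt x hf.2 hl.2 ht hfl (Ne.symm h5) (Ne.symm h6)
    omega
  have hfM : f ∈ M := mem_of_ind (by omega)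
  have hlM : l ∈ M := mem_of_ind (by omega)
  have hsub : ∀ t ∈ T, t ≠ f → t ≠ l → w t = 1 ∧ t ∈ M := by
    intro t ht h5 h6
    have h7 := hother t ht h5 h6
    have h8 := hxw t
    have h9 := ind_le_one M t
    have h10 := hpos t
    exact ⟨by omega, mem_of_ind (by omega)⟩
  refine ⟨T, f, l, hT, ?_, hf.2, hl.2, hfl, hf.1, hl.1, by omega, by omega, hthird, ?_⟩
  · intro t ht
    by_cases h5 : t = f
    · exact h5 ▸ hfM
    · by_cases h6 : t = l
      · exact h6 ▸ hlM
      · exact (hsub t ht h5 h6).2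
  · intro t ht htV
    refine (hsub t ht ?_ ?_).1
    · rintro rfl
      exact htV hf.1
    · rintro rfl
      exact htV hl.1

end Pool.Agent.CUB
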