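import Pool.Agent.CUB.Small

namespace Pool.Agent.CUB

open Finset Pool.Agent.MFM

set_option linter.unusedSectionVars false

variable {E : Type*} [DecidableEq E] [Fintype E]
variable {C : Finset (Finset E)} {s : E → E}

/-- Existence of a critical hole of minimal potential. -/
theorem exists_crit (hmin : MinNonMFMC C) (hp : Paired C s) :
    ∃ g, 2 ≤ g ∧ (∀ w k, Bad C w k → g ≤ k) ∧ ∃ w, Hole C s w g ∧ PotMin C s w g := by
  classical
  obtain ⟨g, hg2, hg, w0, hw0⟩ := exists_hole hmin hp
  have hex : ∃ n w, Hole C s w g ∧ pot s w = n := ⟨_, w0, hw0, rfl⟩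
  obtain ⟨w, hw, hwn⟩ := Nat.find_spec hex
  refine ⟨g, hg2, hg, w, hw, fun w' hw' => ?_⟩
  have := Nat.find_min' hex ⟨w', hw', rfl⟩
  omega

/-- There is a section of elements of weight at least one half. -/
theorem exists_sec (hp : Paired C s) {w : E → ℕ} {g : ℕ} (hsum : ∀ f, w f + w (s f) = g) :
    ∃ V, Sec s V ∧ ∀ f ∈ V, g ≤ 2 * w f := by
  classical
  -- order the elements
  let e := Fintype.equivFin E
  refine ⟨Finset.univ.filter (fun f => w (s f) < w f ∨ (w (s f) = w f ∧ e f < e (s f))),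
    fun f => ?_, fun f hf => ?_⟩
  · rw [Finset.mem_filter, Finset.mem_filter, hp.invol]
    have h1 : e f ≠ e (s f) := fun h => hp.ne f (e.injective h).symm
    constructor
    · rintro ⟨_, h2⟩ ⟨_, h3⟩
      rcases h2 with h2 | h2 <;> rcases h3 with h3 | h3
      · omega
      · omega
      · omega
      · exact absurd (lt_trans h2.2 h3.2) (lt_irrefl _)
    · intro h2
      refine ⟨Finset.mem_univ _, ?_⟩
      by_contra h3
      apply h2
      refine ⟨Finset.mem_univ _, ?_⟩
      rw [not_or, not_and_or] at h3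
      rcases Nat.lt_or_ge (w f) (w (s f)) with h4 | h4
      · exact Or.inl h4
      · right
        have h5 : w (s f) = w f := by omega
        refine ⟨h5.symm, ?_⟩
        rcases h3.2 with h6 | h6
        · exact absurd h5 h6
        · exact lt_of_le_of_ne (not_lt.mp h6) (Ne.symm h1)
  · rw [Finset.mem_filter] at hf
    have h1 := hsum f
    rcases hf.2 with h2 | h2
    · omega
    · omega

/-- The critical value is even. -/
theorem Crit.even (hmin : MinNonMFMC C) (hp : Paired C s) {w : E → ℕ} {g : ℕ}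
    (h : Crit C s w g) (hpm : PotMin C s w g) : Even g := by
  obtain ⟨V, hV, hVw⟩ := exists_sec hp h.hole.sum
  obtain ⟨P, hP, hc⟩ := h.packing_up hmin hp hpm hV hVw
  have h3 := h.three
  obtain ⟨M, hM⟩ := Multiset.card_pos_iff_exists_mem.mp (show 0 < Multiset.card P by omega)
  obtain ⟨T, f, l, _, _, _, _, _, _, _, hf, _⟩ := h.danger hmin hp hV hVw hP hc hM
  exact ⟨w f, by omega⟩

/-- Some member has a complement which is not a member. -/
theorem Crit.compl (hmin : MinNonMFMC C) (hp : Paired C s) {w : E → ℕ} {g : ℕ}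
    (h : Crit C s w g) (hpm : PotMin C s w g) : ∃ M ∈ C, Mᶜ ∉ C := by
  obtain ⟨V, hV, hVw⟩ := exists_sec hp h.hole.sum
  obtain ⟨P, hP, hc⟩ := h.packing_up hmin hp hpm hV hVw
  have h3 := h.three
  obtain ⟨M, hM⟩ := Multiset.card_pos_iff_exists_mem.mp (show 0 < Multiset.card P by omega)
  obtain ⟨T, f, l, hT, hTM, _⟩ := h.danger hmin hp hV hVw hP hc hM
  refine ⟨M, hP.1 M hM, fun hMc => ?_⟩
  obtain ⟨e, he⟩ := hT _ hMc
  rw [Finset.mem_inter, Finset.mem_compl] at he
  exact he.1 (hTM he.2)

theorem wt_ge_of (D : Finset E) {k : ℕ} (P : Multiset (Finset E))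
    (h : ∀ M ∈ P, k ≤ (M ∩ D).card) : k * Multiset.card P ≤ wt (tot P) D := by
  induction P using Multiset.induction_on with
  | empty => simp
  | cons A P ih =>
    have h1 : tot (A ::ₘ P) = tot P + ind A := by
      funext e
      rw [tot_cons]
      rfl
    rw [h1, wt_add, wt_ind, Multiset.card_cons, Nat.mul_add, Nat.mul_one]
    exact Nat.add_le_add (ih (fun M hM => h M (Multiset.mem_cons_of_mem hM)))
      (h A (Multiset.mem_cons_self A P))

theorem Crit.ones_bound (hmin : MinNonMFMC C) (hp : Paired C s) {w : E → ℕ} {g : ℕ}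
    (h : Crit C s w g) {V : Finset E} (hV : Sec s V) (hVw : ∀ f ∈ V, g ≤ 2 * w f)
    {P : Multiset (Finset E)} (hP : IsPacking C (up w V 1) P)
    (hc : Multiset.card P = g + 1) : (g + 1) * (g + 1) ≤ (ones w).card := by
  have h3 := h.three
  have h1 : ∀ M ∈ P, g + 1 ≤ (M ∩ ones w).card := by
    intro M hM
    obtain ⟨T, f, l, hT, hTM, hfT, hlT, hfl, hfV, hlV, hf, hl, hth, hoth⟩ :=
      h.danger hmin hp hV hVw hP hc hM
    have hMC := hP.1 M hM
    have h4 : s f ∉ T := fun h5 => (hp.mem M hMC f).mp (hTM hfT) (hTM h5)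
    have h5 := h.hole.slack hmin hp hT hfT h4
    have h6 : ∃ t ∈ T, t ∉ V := by
      by_contra h7
      push Not at h7
      have h8 : T ⊆ {f, l} := by
        intro t ht
        rw [Finset.mem_insert, Finset.mem_singleton]
        exact hth t ht (h7 t ht)
      have h9 := wt_le_of_subset w h8
      have h10 : wt w {f, l} = w f + w l := by
        unfold wt
        rw [Finset.sum_pair hfl]
      omega
    obtain ⟨t, ht, htV⟩ := h6
    exact h.ones_card hmin hp (hoth t ht htV) hMC (hTM ht)
  have h2 := wt_ge_of (ones w) P h1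
  rw [hc] at h2
  refine h2.trans ?_
  unfold wt
  rw [Finset.card_eq_sum_ones]
  refine Finset.sum_le_sum (fun f hf => ?_)
  rw [mem_ones] at hf
  have h4 : tot P f ≤ up w V 1 f := hP.2 f
  have h5 : f ∉ V := by
    intro h6
    have := hVw f h6
    omega
  rw [up_not_mem w 1 h5] at h4
  omega

end Pool.Agent.CUB
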