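import Pool.Agent.CUB.Count

namespace Pool.Agent.CUB

open Finset Pool.Agent.MFM

set_option linter.unusedSectionVars false

variable {E : Type*} [DecidableEq E] [Fintype E]
variable {C : Finset (Finset E)} {s : E → E}

theorem Hole.nonempty {w : E → ℕ} {g : ℕ} (h : Hole C s w g) (hg : 0 < g) : Nonempty E := by
  by_contra hE
  rw [not_nonempty_iff] at hE
  have hw1 := h.no
  apply hw1
  by_cases hC : ∃ A, A ∈ C
  · obtain ⟨A, hA⟩ := hC
    refine ⟨Multiset.replicate g A, ⟨?_, fun e => hE.elim e⟩, Multiset.card_replicate _ _⟩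
    intro B hB
    rw [Multiset.eq_of_mem_replicate hB]
    exact hA
  · push Not at hC
    have h2 := h.cov ∅ (fun A hA => absurd hA (hC A))
    have h3 : wt w ∅ = 0 := Finset.sum_empty
    rw [h3] at h2
    omega

theorem Hole.tau_eq (hp : Paired C s) {w : E → ℕ} {g : ℕ} (h : Hole C s w g) (hg : 0 < g) :
    tau C w = (g : ℕ∞) := by
  obtain ⟨e⟩ := h.nonempty hg
  refine le_antisymm ?_ (le_tau h.cov)
  refine (tau_le (pair_cover hp e)).trans ?_
  rw [wt_pair hp, h.sum]

theorem paired_of_card {C : Finset (Finset E)} {s : E → E} (hs : ∀ e, s (s e) = e)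
    (hne : ∀ e, s e ≠ e) (hpair : ∀ A ∈ C, ∀ e, (A ∩ {e, s e}).card = 1) : Paired C s := by
  refine ⟨hs, hne, fun A hA e => ?_⟩
  have h1 := hpair A hA e
  constructor
  · intro h2 h3
    have h4 : ({e, s e} : Finset E) ⊆ A ∩ {e, s e} := by
      intro x hx
      refine Finset.mem_inter.mpr ⟨?_, hx⟩
      rw [Finset.mem_insert, Finset.mem_singleton] at hx
      rcases hx with rfl | rfl
      · exact h2
      · exact h3
    have h5 := Finset.card_le_card h4
    rw [Finset.card_pair (hne e).symm, h1] at h5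
    omega
  · intro h2
    by_contra h3
    have h4 : A ∩ {e, s e} = ∅ := by
      rw [Finset.eq_empty_iff_forall_notMem]
      intro x hx
      rw [Finset.mem_inter, Finset.mem_insert, Finset.mem_singleton] at hx
      rcases hx.2 with rfl | rfl
      · exact h3 hx.1
      · exact h2 hx.1
    rw [h4, Finset.card_empty] at h1
    omega

/-- The critical value of a minimally non-MFMC clutter with all elements in pairs. -/
theorem cuboid (hmin : MinNonMFMC C) (hp : Paired C s) :
    (tau C 1 = 2 ∧ nu C 1 < 2) ∨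
    ∃ g : ℕ, Even g ∧ 4 ≤ g ∧ (∀ W, nu C W < tau C W → (g : ℕ∞) ≤ tau C W) ∧
      (∃ W, nu C W < tau C W ∧ tau C W = (g : ℕ∞)) ∧
      2 * ((g + 1) ^ 2 + 4) ≤ Fintype.card E := by
  obtain ⟨g, hg2, hg, w, hw, hpm⟩ := exists_crit hmin hp
  rcases Nat.lt_or_ge g 3 with hg3 | hg3
  · left
    have hge : g = 2 := by omega
    subst hge
    have hone : w = 1 := by
      funext e
      have h1 := hw.pos hmin e
      have h2 := hw.pos hmin (s e)
      have h3 := hw.sum e
      show w e = 1
      omega
    rw [hone] at hw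
    exact ⟨by rw [hw.tau_eq hp (by omega)]; rfl, nu_lt hw.no⟩
  · right
    have hc : Crit C s w g := ⟨hw, hg, hg3⟩
    obtain ⟨h1, h2⟩ := hc.card_bound hmin hp hpm
    refine ⟨g, hc.even hmin hp hpm, h1, ?_, ⟨w, ?_, hw.tau_eq hp (by omega)⟩, h2⟩
    · intro W hW
      obtain ⟨k, hk, hno⟩ := exists_viol hW
      have h3 := hg W k ⟨hk, hno⟩
      refine le_trans ?_ (le_tau hk)
      exact_mod_cast h3
    · rw [hw.tau_eq hp (by omega)]
      exact nu_lt hw.no

/-- A minimally non-MFMC clutter with all elements in pairs is not closed under complements. -/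
theorem not_symm (hmin : MinNonMFMC C) (hp : Paired C s) : ∃ A ∈ C, Aᶜ ∉ C := by
  obtain ⟨g, hg2, hg, w, hw, hpm⟩ := exists_crit hmin hp
  rcases Nat.lt_or_ge g 3 with hg3 | hg3
  · have hge : g = 2 := by omega
    subst hge
    have hC : ∃ A, A ∈ C := by
      by_contra h1
      push Not at h1
      have h2 := hw.cov ∅ (fun A hA => absurd hA (h1 A))
      have h3 : wt w ∅ = 0 := Finset.sum_empty
      omega
    obtain ⟨A, hA⟩ := hC
    refine ⟨A, hA, fun hAc => ?_⟩
    refine hw.no ⟨{A, Aᶜ}, ⟨?_, fun e => ?_⟩, rfl⟩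
    · intro B hB
      rw [Multiset.insert_eq_cons, Multiset.mem_cons, Multiset.mem_singleton] at hB
      rcases hB with rfl | rfl
      · exact hA
      · exact hAc
    · show tot {A, Aᶜ} e ≤ w e
      rw [Multiset.insert_eq_cons, tot_cons, ← Multiset.cons_zero, tot_cons, tot_zero]
      have h1 := hw.pos hmin e
      by_cases he : e ∈ A
      · rw [ind_apply_mem he, ind_apply_not_mem (by simpa using he)]
        omega
      · rw [ind_apply_not_mem he]
        have := ind_le_one Aᶜ e
        omega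
  · exact (⟨hw, hg, hg3⟩ : Crit C s w g).compl hmin hp hpm

end Pool.Agent.CUB
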