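import Pool.Agent.CUB.Base

namespace Pool.Agent.CUB

open Finset Pool.Agent.MFM

set_option linter.unusedSectionVars false

variable {E : Type*} [DecidableEq E] [Fintype E]
variable {C : Finset (Finset E)} {s : E → E}

/-- `w` lowered by one at `f`. -/
def low (w : E → ℕ) (f : E) : E → ℕ := fun g => w g - ind {f} g

theorem low_le (w : E → ℕ) (f : E) : low w f ≤ w := fun _ => Nat.sub_le _ _

theorem low_self (w : E → ℕ) (f : E) : low w f f = w f - 1 := by
  unfold low
  rw [ind_apply_mem (Finset.mem_singleton_self f)]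

theorem low_other (w : E → ℕ) {f g : E} (h : g ≠ f) : low w f g = w g := by
  unfold low
  rw [ind_apply_not_mem (by simpa using h), Nat.sub_zero]

theorem wt_low {w : E → ℕ} {f : E} (hf : 0 < w f) (T : Finset E) :
    wt (low w f) T + (if f ∈ T then 1 else 0) = wt w T := by
  have h1 : low w f + ind {f} = w := by
    funext g
    show low w f g + ind {f} g = w g
    by_cases hg : g = f
    · subst hg
      rw [low_self, ind_apply_mem (Finset.mem_singleton_self g)]
      omega
    · rw [low_other w hg, ind_apply_not_mem (by simpa using hg), Nat.add_zero]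
  have h2 : wt (low w f + ind {f}) T = wt w T := by rw [h1]
  rw [wt_add, wt_ind] at h2
  rw [← h2]
  by_cases hfT : f ∈ T
  · rw [if_pos hfT, Finset.singleton_inter_of_mem hfT, Finset.card_singleton]
  · rw [if_neg hfT, Finset.singleton_inter_of_notMem hfT, Finset.card_empty]

theorem sum_low {w : E → ℕ} {f : E} (hf : 0 < w f) : ∑ e, low w f e < ∑ e, w e := by
  have h := wt_low hf Finset.univ
  rw [if_pos (Finset.mem_univ f)] at h
  unfold wt at h
  omega

/-- There is a hole of the smallest possible level of a violation. -/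
theorem exists_hole (hmin : MinNonMFMC C) (hp : Paired C s) :
    ∃ g, 2 ≤ g ∧ (∀ w k, Bad C w k → g ≤ k) ∧ ∃ w, Hole C s w g := by
  classical
  have h1 := hmin.1
  unfold MFMC at h1
  push Not at h1
  obtain ⟨W, hW⟩ := h1
  have hlt : nu C W < tau C W := lt_of_le_of_ne (nu_le_tau C W) (Ne.symm hW)
  have hex : ∃ k w, Bad C w k := by
    obtain ⟨k, hk, hno⟩ := exists_viol hlt
    exact ⟨k, W, hk, hno⟩
  set g := Nat.find hex with hg
  have hgmin : ∀ w k, Bad C w k → g ≤ k := fun w k h => Nat.find_min' hex ⟨w, h⟩
  obtain ⟨w0, hw0⟩ := Nat.find_spec hex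
  have hex2 : ∃ n, ∃ w, ∑ e, w e = n ∧ Bad C w g := ⟨_, w0, rfl, hw0⟩
  obtain ⟨w, hwn, hw⟩ := Nat.find_spec hex2
  have hwmin : ∀ w', ∑ e, w' e < ∑ e, w e → ¬ Bad C w' g := by
    intro w' hlt' hb
    have := Nat.find_min' hex2 ⟨w', rfl, hb⟩
    omega
  have hpos : ∀ e, 0 < w e := pos_of_min (fun e => del_of_min hmin e) hw.1 hw.2
  have htight : ∀ f, ∃ T, IsCover C T ∧ f ∈ T ∧ wt w T ≤ g := by
    intro f
    have h2 := hwmin (low w f) (sum_low (hpos f))
    unfold Bad at h2
    rw [not_and_or] at h2
    rcases h2 with h2 | h2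
    · push Not at h2
      obtain ⟨T, hT, hlt2⟩ := h2
      have h3 := wt_low (hpos f) T
      have h4 := hw.1 T hT
      by_cases hfT : f ∈ T
      · rw [if_pos hfT] at h3
        exact ⟨T, hT, hfT, by omega⟩
      · rw [if_neg hfT] at h3
        omega
    · exfalso
      apply h2
      rintro ⟨P, hP, hc⟩
      exact hw.2 ⟨P, ⟨hP.1, fun e => (hP.2 e).trans (low_le w f e)⟩, hc⟩
  have hsum : ∀ f, w f + w (s f) = g := by
    intro f
    apply le_antisymm
    · obtain ⟨T, hT, hfT, hwT⟩ := htight f
      obtain ⟨T', hT', hfT', hwT'⟩ := htight (s f)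
      by_cases h3 : s f ∈ T
      · refine le_trans ?_ hwT
        rw [← wt_pair hp w f]
        refine wt_le_of_subset w ?_
        intro x hx
        rw [Finset.mem_insert, Finset.mem_singleton] at hx
        rcases hx with rfl | rfl
        · exact hfT
        · exact h3
      by_cases h4 : f ∈ T'
      · refine le_trans ?_ hwT'
        rw [← wt_pair hp w f]
        refine wt_le_of_subset w ?_
        intro x hx
        rw [Finset.mem_insert, Finset.mem_singleton] at hx
        rcases hx with rfl | rfl
        · exact h4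
        · exact hfT'
      have h5 := hw.1 _ (cover_exchange hp (e := f) hT hT')
      have h6 := wt_union w (T.erase f) (T'.erase (s f))
      have h7 : w f + wt w (T.erase f) = wt w T := Finset.add_sum_erase T w hfT
      have h8 : w (s f) + wt w (T'.erase (s f)) = wt w T' := Finset.add_sum_erase T' w hfT'
      omega
    · rw [← wt_pair hp w f]
      exact hw.1 _ (pair_cover hp f)
  refine ⟨g, ?_, hgmin, w, hsum, hw.1, hw.2⟩
  by_contra hg2
  have : Nonempty E := by
    by_contra hE
    rw [not_nonempty_iff] at hE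
    have hw1 := hw.2
    apply hw1
    by_cases hC : ∃ A, A ∈ C
    · obtain ⟨A, hA⟩ := hC
      refine ⟨Multiset.replicate g A, ⟨?_, fun e => hE.elim e⟩, Multiset.card_replicate _ _⟩
      intro B hB
      rw [Multiset.eq_of_mem_replicate hB]
      exact hA
    · push Not at hC
      have h2 := hw.1 ∅ (fun A hA => absurd hA (hC A))
      have h3 : wt w ∅ = 0 := Finset.sum_empty
      rw [h3] at h2
      refine ⟨0, ⟨fun A hA => absurd hA (Multiset.notMem_zero A), fun e => hE.elim e⟩, ?_⟩
      rw [Multiset.card_zero]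
      omega
  obtain ⟨e⟩ := this
  have h2 := hsum e
  have h3 := hpos e
  have h4 := hpos (s e)
  omega

/-- A set with exactly one element of each pair. -/
def Sec (s : E → E) (V : Finset E) : Prop := ∀ f, f ∈ V ↔ s f ∉ V

theorem Sec.ind_add {V : Finset E} (h : Sec s V) (f : E) : ind V f + ind V (s f) = 1 := by
  have h1 := h f
  unfold ind
  by_cases hf : f ∈ V
  · rw [if_pos hf, if_neg (h1.mp hf)]
  · have h3 : s f ∈ V := by
      by_contra h4
      exact hf (h1.mpr h4)
    rw [if_neg hf, if_pos h3]

theorem mem_sec (hp : Paired C s) {A : Finset E} (hA : A ∈ C) : Sec s A := hp.mem A hA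

/-- A member is a section, so it is determined by being contained in a section. -/
theorem Sec.eq_of_subset {A V : Finset E} (hA : Sec s A) (hV : Sec s V) (h : A ⊆ V) : A = V := by
  refine subset_antisymm h (fun f hf => ?_)
  by_contra hfA
  have h1 : s f ∈ A := by
    by_contra h2
    exact hfA ((hA f).mpr h2)
  exact (hV f).mp hf (h h1)

/-- The complement of a section that is not a member is a cover. -/
theorem compl_cover (hp : Paired C s) {V : Finset E} (hV : Sec s V) (h : V ∉ C) :
    IsCover C Vᶜ := by
  intro A hA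
  by_contra h1
  rw [Finset.not_nonempty_iff_eq_empty] at h1
  have h2 : A ⊆ V := by
    intro f hf
    by_contra h3
    have : f ∈ A ∩ Vᶜ := Finset.mem_inter.mpr ⟨hf, Finset.mem_compl.mpr h3⟩
    rw [h1] at this
    exact absurd this (Finset.notMem_empty f)
  exact h ((mem_sec hp hA).eq_of_subset hV h2 ▸ hA)

/-- A packing of full size uses every element exactly. -/
theorem tot_eq (hp : Paired C s) {w : E → ℕ} {k : ℕ} (hsum : ∀ f, w f + w (s f) = k)
    {P : Multiset (Finset E)} (hP : IsPacking C w P) (hc : Multiset.card P = k) (f : E) :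
    tot P f = w f := by
  have h1 := tot_pair hp hP.1 f
  have h2 : tot P f ≤ w f := hP.2 f
  have h3 : tot P (s f) ≤ w (s f) := hP.2 (s f)
  have h4 := hsum f
  omega

end Pool.Agent.CUB
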