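import Pool.Agent.CUB.Final

/-!
A minimally non-MFMC clutter with a member all of whose elements lie in complementary pairs
has all its elements in complementary pairs.
-/

namespace Pool.Agent.CUB

open Finset Pool.Agent.MFM

set_option linter.unusedSectionVars false

variable {E : Type*} [DecidableEq E] [Fintype E]
variable {C : Finset (Finset E)}

/-- `e` and `f` form a complementary pair. -/
structure Pr (C : Finset (Finset E)) (e f : E) : Prop where
  ne : f ≠ e
  mem : ∀ A ∈ C, (e ∈ A ↔ f ∉ A)

theorem Pr.symm {e f : E} (h : Pr C e f) : Pr C f e := by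
  refine ⟨h.ne.symm, fun A hA => ?_⟩
  have h1 := h.mem A hA
  constructor
  · intro h2 h3
    exact (h1.mp h3) h2
  · intro h2
    by_contra h3
    exact h2 (h1.mpr h3)

theorem Pr.tot {e f : E} (h : Pr C e f) {P : Multiset (Finset E)} (hP : ∀ A ∈ P, A ∈ C) :
    tot P e + tot P f = Multiset.card P := by
  induction P using Multiset.induction_on with
  | empty => simp [tot_zero]
  | cons A P ih =>
    have h1 := ih (fun B hB => hP B (Multiset.mem_cons_of_mem hB))
    rw [tot_cons, tot_cons, Multiset.card_cons]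
    have h2 := h.mem A (hP A (Multiset.mem_cons_self A P))
    unfold ind
    by_cases hf : e ∈ A
    · rw [if_pos hf, if_neg (h2.mp hf)]
      omega
    · have h3 : f ∈ A := by
        by_contra h4
        exact hf (h2.mpr h4)
      rw [if_neg hf, if_pos h3]
      omega

theorem Pr.cover {e f : E} (h : Pr C e f) : IsCover C {e, f} := by
  intro A hA
  have h2 := h.mem A hA
  by_cases hf : e ∈ A
  · exact ⟨e, by simp [hf]⟩
  · have h3 : f ∈ A := by
      by_contra h4
      exact hf (h2.mpr h4)
    exact ⟨f, by simp [h3]⟩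

theorem Pr.wt {e f : E} (h : Pr C e f) (w : E → ℕ) : wt w {e, f} = w e + w f := by
  unfold MFM.wt
  rw [Finset.sum_pair h.ne.symm]

theorem Pr.exchange {e f : E} (h : Pr C e f) {T T' : Finset E} (hT : IsCover C T)
    (hT' : IsCover C T') : IsCover C (T.erase e ∪ T'.erase f) := by
  intro A hA
  by_cases he : e ∈ A
  · obtain ⟨x, hx⟩ := hT' A hA
    rw [Finset.mem_inter] at hx
    refine ⟨x, Finset.mem_inter.mpr ⟨hx.1, Finset.mem_union_right _ ?_⟩⟩
    refine Finset.mem_erase.mpr ⟨?_, hx.2⟩
    rintro rfl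
    exact (h.mem A hA).mp he hx.1
  · obtain ⟨x, hx⟩ := hT A hA
    rw [Finset.mem_inter] at hx
    refine ⟨x, Finset.mem_inter.mpr ⟨hx.1, Finset.mem_union_left _ ?_⟩⟩
    refine Finset.mem_erase.mpr ⟨?_, hx.2⟩
    rintro rfl
    exact he hx.1

/-- A violation of the smallest level with the smallest total weight. -/
structure Base (C : Finset (Finset E)) (w : E → ℕ) (g : ℕ) : Prop where
  bad : Bad C w g
  pos : ∀ e, 0 < w e
  tight : ∀ e, ∃ T, IsCover C T ∧ e ∈ T ∧ wt w T ≤ g

theorem exists_base (hmin : MinNonMFMC C) : ∃ g w, Base C w g := by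
  classical
  have h1 := hmin.1
  unfold MFMC at h1
  push Not at h1
  obtain ⟨W, hW⟩ := h1
  have hlt : nu C W < tau C W := lt_of_le_of_ne (nu_le_tau C W) (Ne.symm hW)
  obtain ⟨g, hk, hno⟩ := exists_viol hlt
  have hex2 : ∃ n, ∃ w, ∑ e, w e = n ∧ Bad C w g := ⟨_, W, rfl, hk, hno⟩
  obtain ⟨w, hwn, hw⟩ := Nat.find_spec hex2
  have hwmin : ∀ w', ∑ e, w' e < ∑ e, w e → ¬ Bad C w' g := by
    intro w' hlt' hb
    have := Nat.find_min' hex2 ⟨w', rfl, hb⟩
    omega
  have hpos : ∀ e, 0 < w e := pos_of_min (fun e => del_of_min hmin e) hw.1 hw.2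
  refine ⟨g, w, hw, hpos, fun f => ?_⟩
  have h2 := hwmin (low w f) (sum_low (hpos f))
  unfold Bad at h2
  rw [not_and_or] at h2
  rcases h2 with h2 | h2
  · push Not at h2
    obtain ⟨T, hT, hlt2⟩ := h2
    have h3 := wt_low (hpos f) T
    have h4 := hw.1 T hT
    by_cases hfT : f ∈ T
    · rw [if_pos hfT] at h3
      exact ⟨T, hT, hfT, by omega⟩
    · rw [if_neg hfT] at h3
      omega
  · exfalso
    apply h2
    rintro ⟨P, hP, hc⟩
    exact hw.2 ⟨P, ⟨hP.1, fun e => (hP.2 e).trans (low_le w f e)⟩, hc⟩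

theorem Base.sum {w : E → ℕ} {g : ℕ} (h : Base C w g) {e f : E} (hp : Pr C e f) :
    w e + w f = g := by
  apply le_antisymm
  · obtain ⟨T, hT, hfT, hwT⟩ := h.tight e
    obtain ⟨T', hT', hfT', hwT'⟩ := h.tight f
    by_cases h3 : f ∈ T
    · refine le_trans ?_ hwT
      rw [← hp.wt w]
      refine wt_le_of_subset w ?_
      intro x hx
      rw [Finset.mem_insert, Finset.mem_singleton] at hx
      rcases hx with rfl | rfl
      · exact hfT
      · exact h3
    by_cases h4 : e ∈ T'
    · refine le_trans ?_ hwT'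
      rw [← hp.wt w]
      refine wt_le_of_subset w ?_
      intro x hx
      rw [Finset.mem_insert, Finset.mem_singleton] at hx
      rcases hx with rfl | rfl
      · exact h4
      · exact hfT'
    have h5 := h.bad.1 _ (hp.exchange hT hT')
    have h6 := wt_union w (T.erase e) (T'.erase f)
    have h7 : w e + wt w (T.erase e) = wt w T := Finset.add_sum_erase T w hfT
    have h8 : w f + wt w (T'.erase f) = wt w T' := Finset.add_sum_erase T' w hfT'
    omega
  · rw [← hp.wt w]
    exact h.bad.1 _ hp.cover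

/-- A tight cover containing `e` contains its partner. -/
theorem Base.slack (hmin : MinNonMFMC C) {w : E → ℕ} {g : ℕ} (h : Base C w g) {e f : E}
    (hp : Pr C e f) {T : Finset E} (hT : IsCover C T) (he : e ∈ T) (hf : f ∉ T) :
    g + 1 ≤ wt w T := by
  obtain ⟨P, hP, hc, hx⟩ := con_pack hmin (w := w) (k := g) (e := f) (fun B hB _ => h.bad.1 B hB)
  have h1 := hp.tot hP
  have h2 := h.sum hp
  have h3 : tot P e ≤ w e := hx e hp.ne.symm
  have h4 : tot P e ≠ w e := by
    intro h5
    refine h.bad.2 ⟨P, ⟨hP, fun x => ?_⟩, hc⟩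
    by_cases hxf : x = f
    · subst hxf
      show tot P x ≤ w x
      omega
    · exact hx x hxf
  have h5 : wt (tot P + ind {e}) T ≤ wt w T := by
    unfold wt
    refine Finset.sum_le_sum (fun x hxT => ?_)
    show tot P x + ind {e} x ≤ w x
    by_cases hxe : x = e
    · subst hxe
      have : ind ({x} : Finset E) x = 1 := ind_apply_mem (Finset.mem_singleton_self x)
      omega
    · have : ind ({e} : Finset E) x = 0 := ind_apply_not_mem (by simpa using hxe)
      have h6 : x ≠ f := by
        rintro rfl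
        exact hf hxT
      have := hx x h6
      omega
  have h6 : wt (tot P) T + 1 ≤ wt (tot P + ind {e}) T := by
    rw [wt_add, wt_ind]
    have : ({e} ∩ T).card = 1 := by
      rw [Finset.singleton_inter_of_mem he, Finset.card_singleton]
    omega
  have h7 := wt_tot (F := C) hT P hP
  omega

/-- The partner is unique. -/
theorem Base.unique (hmin : MinNonMFMC C) {w : E → ℕ} {g : ℕ} (h : Base C w g) {e f f' : E}
    (hp : Pr C e f) (hp' : Pr C e f') : f = f' := by
  by_contra hne
  obtain ⟨P, hP, hc, hx⟩ := con_pack hmin (w := w) (k := g) (e := f') (fun B hB _ => h.bad.1 B hB)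
  have h1 := hp.tot hP
  have h2 := hp'.tot hP
  have h3 := h.sum hp
  have h4 := h.sum hp'
  have h5 := hx f hne
  refine h.bad.2 ⟨P, ⟨hP, fun x => ?_⟩, hc⟩
  by_cases hxf : x = f'
  · subst hxf
    show tot P x ≤ w x
    omega
  · exact hx x hxf

theorem Base.all (hmin : MinNonMFMC C) {w : E → ℕ} {g : ℕ} (h : Base C w g) {A : Finset E}
    (hA : A ∈ C) (hpr : ∀ e ∈ A, ∃ f, Pr C e f) (e : E) : ∃ f, Pr C e f := by
  obtain ⟨T, hT, heT, hwT⟩ := h.tight e
  obtain ⟨a, ha⟩ := hT A hA
  rw [Finset.mem_inter] at ha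
  obtain ⟨b, hb⟩ := hpr a ha.1
  by_cases hbT : b ∈ T
  · by_cases hea : e = a
    · exact ⟨b, hea ▸ hb⟩
    by_cases heb : e = b
    · exact ⟨a, heb ▸ hb.symm⟩
    exfalso
    have h1 := three_le_wt w ha.2 hbT heT hb.ne.symm (Ne.symm hea) (Ne.symm heb)
    have h2 := h.sum hb
    have h3 := h.pos e
    omega
  · exfalso
    have h1 := h.slack hmin hb hT ha.2 hbT
    omega

/-- A member whose elements lie in pairs forces all elements into pairs. -/
theorem exists_paired (hmin : MinNonMFMC C) {A : Finset E} (hA : A ∈ C)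
    (hpr : ∀ e ∈ A, ∃ f, Pr C e f) : ∃ s : E → E, Paired C s := by
  obtain ⟨g, w, h⟩ := exists_base hmin
  choose s hs using h.all hmin hA hpr
  refine ⟨s, fun e => ?_, fun e => (hs e).ne, fun B hB e => (hs e).mem B hB⟩
  exact h.unique hmin (hs (s e)) (hs e).symm

theorem pr_of_card {C : Finset (Finset E)} {e f : E} (hne : f ≠ e)
    (h : ∀ A ∈ C, (A ∩ {e, f}).card = 1) : Pr C e f := by
  refine ⟨hne, fun A hA => ?_⟩
  have h1 := h A hA
  constructor
  · intro h2 h3
    have h4 : ({e, f} : Finset E) ⊆ A ∩ {e, f} := by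
      intro x hx
      refine Finset.mem_inter.mpr ⟨?_, hx⟩
      rw [Finset.mem_insert, Finset.mem_singleton] at hx
      rcases hx with rfl | rfl
      · exact h2
      · exact h3
    have h5 := Finset.card_le_card h4
    rw [Finset.card_pair hne.symm, h1] at h5
    omega
  · intro h2
    by_contra h3
    have h4 : A ∩ {e, f} = ∅ := by
      rw [Finset.eq_empty_iff_forall_notMem]
      intro x hx
      rw [Finset.mem_inter, Finset.mem_insert, Finset.mem_singleton] at hx
      rcases hx.2 with rfl | rfl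
      · exact h3 hx.1
      · exact h2 hx.1
    rw [h4, Finset.card_empty] at h1
    omega

theorem Pr.card {e f : E} (h : Pr C e f) {A : Finset E} (hA : A ∈ C) :
    (A ∩ {e, f}).card = 1 := by
  rw [Finset.card_eq_one]
  have h1 := h.mem A hA
  by_cases he : e ∈ A
  · refine ⟨e, ?_⟩
    ext x
    simp only [Finset.mem_inter, Finset.mem_insert, Finset.mem_singleton]
    constructor
    · rintro ⟨hx, rfl | rfl⟩
      · rfl
      · exact absurd hx (h1.mp he)
    · rintro rfl
      exact ⟨he, Or.inl rfl⟩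
  · have hf : f ∈ A := by
      by_contra h2
      exact he (h1.mpr h2)
    refine ⟨f, ?_⟩
    ext x
    simp only [Finset.mem_inter, Finset.mem_insert, Finset.mem_singleton]
    constructor
    · rintro ⟨hx, rfl | rfl⟩
      · exact absurd hx he
      · rfl
    · rintro rfl
      exact ⟨hf, Or.inr rfl⟩

end Pool.Agent.CUB
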