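import Pool.Agent.CUB.Danger

namespace Pool.Agent.CUB

open Finset Pool.Agent.MFM

set_option linter.unusedSectionVars false

variable {E : Type*} [DecidableEq E] [Fintype E]
variable {C : Finset (Finset E)} {s : E → E}

/-- The potential of a weight. -/
def pot (s : E → E) (w : E → ℕ) : ℕ := ∑ f, min (w f) (w (s f))

/-- Holes of the smallest level do not have smaller potential than `w`. -/
def PotMin (C : Finset (Finset E)) (s : E → E) (w : E → ℕ) (g : ℕ) : Prop :=
  ∀ w', Hole C s w' g → pot s w ≤ pot s w'

/-- A critical hole stays a hole when it is raised, from the second step on. -/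
theorem Crit.raise (hmin : MinNonMFMC C) (hp : Paired C s) {w : E → ℕ} {g : ℕ}
    (h : Crit C s w g) (hpm : PotMin C s w g) {V : Finset E} (hV : Sec s V)
    (hVw : ∀ f ∈ V, g ≤ 2 * w f) {j : ℕ} (hj : 1 ≤ j) (hh : Hole C s (up w V j) (g + j)) :
    ¬ ∃ P, IsPacking C (up w V (j + 1)) P ∧ Multiset.card P = g + (j + 1) := by
  rintro ⟨P, hP, hc⟩
  have hpos := h.hole.pos hmin
  have h3 := h.three
  have htot : ∀ f, tot P f = up w V (j + 1) f :=
    tot_eq hp (up_sum h.hole.sum hV (j + 1)) hP hc
  -- every member of `P` is `V`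
  have key : ∀ M ∈ P, ∀ f ∈ V, s f ∉ M := by
    intro M hM
    obtain ⟨P', rfl⟩ := Multiset.exists_cons_of_mem hM
    rw [Multiset.card_cons] at hc
    obtain ⟨A, hA, hAc⟩ := exists_le_card P' (k := g + 1) (by omega)
    have hAP : A ≤ M ::ₘ P' := hA.trans (Multiset.le_cons_self P' M)
    have hAC : ∀ B ∈ A, B ∈ C := fun B hB => hP.1 B (Multiset.mem_of_le hAP hB)
    obtain ⟨R, hR⟩ := Multiset.le_iff_exists_add.mp hA
    have hsplit : ∀ f, tot (M ::ₘ P') f = tot A f + tot R f + ind M f := by
      intro f
      rw [tot_cons, hR, tot_add]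
    have hApair := tot_pair hp hAC
    have hAle : ∀ f ∈ V, tot A (s f) + ind M (s f) ≤ w (s f) := by
      intro f hf
      have h1 := hsplit (s f)
      rw [htot, up_not_mem w (j + 1) ((hV f).mp hf)] at h1
      omega
    set x : E → ℕ := fun f => tot A f - ind V f with hx
    have hsV : ∀ f, f ∉ V → s f ∈ V := by
      intro f hf
      by_contra h1
      exact hf ((hV f).mpr h1)
    have hAf : ∀ f ∈ V, w f + 1 ≤ tot A f := by
      intro f hf
      have h1 := hApair f
      have h2 := hAle f hf
      have h4 := h.hole.sum f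
      omega
    have hxV : ∀ f, x f + ind V f = tot A f := by
      intro f
      simp only [hx]
      by_cases hf : f ∈ V
      · have h1 := hAf f hf
        rw [ind_apply_mem hf]
        omega
      · rw [ind_apply_not_mem hf]
        omega
    have hxsum : ∀ f, x f + x (s f) = g := by
      intro f
      have h1 := hxV f
      have h2 := hxV (s f)
      have h4 := hV.ind_add f
      have h5 := hApair f
      omega
    have hxcov : ∀ B, IsCover C B → g ≤ wt x B := by
      intro T hT
      have h1 := wt_sub_sec hxV T
      have h2 : Multiset.card A ≤ wt (tot A) T := wt_tot (F := C) hT A hAC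
      by_cases h4 : (V ∩ T).card ≤ 1
      · omega
      · push Not at h4
        obtain ⟨f, hf, l, hl, hfl⟩ := Finset.one_lt_card.mp h4
        rw [Finset.mem_inter] at hf hl
        have h5 := two_le_wt x hf.2 hl.2 hfl
        have h6 := hAf f hf.1
        have h7 := hAf l hl.1
        have h8 := hxV f
        have h9 := hxV l
        rw [ind_apply_mem hf.1] at h8
        rw [ind_apply_mem hl.1] at h9
        have h10 := hVw f hf.1
        have h11 := hVw l hl.1
        omega
    by_cases hq : ∃ Q, IsPacking C x Q ∧ Multiset.card Q = g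
    · exfalso
      obtain ⟨Q, hQ, hQc⟩ := hq
      obtain ⟨Q', hQ'1, hQ'2, hQ'3⟩ := reduce (V := V) hP.1 hAP (fun f => (hxV f).le) hQ
      refine hh.no ⟨Q', ⟨hQ'1, fun f => ?_⟩, ?_⟩
      · show tot Q' f ≤ up w V j f
        have h1 := hQ'3 f
        rw [htot f, up_succ] at h1
        omega
      · rw [Multiset.card_cons] at hQ'2
        omega
    · have hxhole : Hole C s x g := ⟨hxsum, hxcov, hq⟩
      have h1 := hpm x hxhole
      have hle : ∀ f ∈ (Finset.univ : Finset E), min (x f) (x (s f)) ≤ min (w f) (w (s f)) := by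
        intro f _
        by_cases hf : f ∈ V
        · have h2 := hAle f hf
          have h4 := hxV (s f)
          have h5 := hVw f hf
          have h6 := h.hole.sum f
          omega
        · have hf' := hsV f hf
          have h2 := hAle (s f) hf'
          rw [hp.invol] at h2
          have h4 := hxV f
          have h5 := hVw (s f) hf'
          have h6 := h.hole.sum f
          omega
      have hsum_le := Finset.sum_le_sum hle
      have hsum_eq : ∑ f, min (x f) (x (s f)) = ∑ f, min (w f) (w (s f)) :=
        le_antisymm hsum_le h1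
      have heq := (Finset.sum_eq_sum_iff_of_le hle).mp hsum_eq
      intro f hf hfM
      have h2 := heq f (Finset.mem_univ f)
      have h4 := hAle f hf
      rw [ind_apply_mem hfM] at h4
      have h5 := hxV (s f)
      have h6 := hVw f hf
      have h7 := h.hole.sum f
      omega
  -- contradiction
  have hcpos : 0 < Multiset.card P := by omega
  obtain ⟨M, hM⟩ := Multiset.card_pos_iff_exists_mem.mp hcpos
  have hne : ∃ f, f ∈ V := by
    by_contra h1
    push Not at h1
    have hVe : V = ∅ := Finset.eq_empty_of_forall_notMem h1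
    have hE : ∀ e : E, False := by
      intro e
      have h2 := hV e
      have h4 : s e ∉ V := h1 (s e)
      exact h1 e (h2.mpr h4)
    refine h.hole.no ⟨Multiset.replicate g M, ⟨?_, fun e => (hE e).elim⟩,
      Multiset.card_replicate _ _⟩
    intro B hB
    rw [Multiset.eq_of_mem_replicate hB]
    exact hP.1 M hM
  obtain ⟨f, hf⟩ := hne
  have h1 := htot (s f)
  rw [up_not_mem w (j + 1) ((hV f).mp hf)] at h1
  have h2 := hpos (s f)
  obtain ⟨N, hN, hfN⟩ := tot_pos (P := P) (e := s f) (by omega)
  exact key N hN f hf hfN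

/-- If the first raise has no packing, then all raises are holes. -/
theorem Crit.all_up (hmin : MinNonMFMC C) (hp : Paired C s) {w : E → ℕ} {g : ℕ}
    (h : Crit C s w g) (hpm : PotMin C s w g) {V : Finset E} (hV : Sec s V)
    (hVw : ∀ f ∈ V, g ≤ 2 * w f)
    (h1 : ¬ ∃ P, IsPacking C (up w V 1) P ∧ Multiset.card P = g + 1) (j : ℕ) :
    Hole C s (up w V j) (g + j) := by
  have h3 := h.three
  induction j with
  | zero =>
    rw [up_zero]
    exact h.hole
  | succ j ih =>
    refine ⟨up_sum h.hole.sum hV (j + 1), fun B hB => ?_, ?_⟩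
    · exact ih.cov_up hmin hp hV (by omega) h.hole.sum hB
    · rcases Nat.eq_zero_or_pos j with rfl | hj
      · exact h1
      · exact h.raise hmin hp hpm hV hVw hj ih

/-- In a critical hole of minimal potential every raise has a packing. -/
theorem Crit.packing_up (hmin : MinNonMFMC C) (hp : Paired C s) {w : E → ℕ} {g : ℕ}
    (h : Crit C s w g) (hpm : PotMin C s w g) {V : Finset E} (hV : Sec s V)
    (hVw : ∀ f ∈ V, g ≤ 2 * w f) :
    ∃ P, IsPacking C (up w V 1) P ∧ Multiset.card P = g + 1 := by
  by_contra hno
  have hall := h.all_up hmin hp hpm hV hVw hno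
  have h3 := h.three
  have hpos := h.hole.pos hmin
  have hVC : V ∈ C := by
    by_contra hVC
    have hcov := compl_cover hp hV hVC
    have h1 := (hall (wt w Vᶜ + 1)).cov _ hcov
    have h2 : wt (up w V (wt w Vᶜ + 1)) Vᶜ = wt w Vᶜ := by
      unfold wt
      refine Finset.sum_congr rfl (fun f hf => ?_)
      exact up_not_mem w _ (Finset.mem_compl.mp hf)
    rw [h2] at h1
    omega
  set x : E → ℕ := fun f => w f - ind V f with hx
  have hxV : ∀ f, x f + ind V f = w f := by
    intro f
    have h1 := hpos f
    have h2 := ind_le_one V f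
    simp only [hx]
    omega
  have hxcov : ∀ B, IsCover C B → g - 1 ≤ wt x B := by
    intro T hT
    have h1 := wt_sub_sec hxV T
    have h2 := h.hole.cov T hT
    have hne : T.Nonempty := by
      by_contra h4
      rw [Finset.not_nonempty_iff_eq_empty] at h4
      subst h4
      have h5 : wt w ∅ = 0 := Finset.sum_empty
      omega
    by_cases h4 : ∃ e ∈ T, s e ∉ T
    · obtain ⟨e, he, hse⟩ := h4
      have h5 := h.hole.slack hmin hp hT he hse
      by_cases h6 : (V ∩ T).card ≤ 2
      · omega
      · push Not at h6
        obtain ⟨a, b, c, ha, hb, hc, hab, hac, hbc⟩ := Finset.two_lt_card_iff.mp h6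
        rw [Finset.mem_inter] at ha hb hc
        have h7 := three_le_wt x ha.2 hb.2 hc.2 hab hac hbc
        have h8 := hxV a
        have h9 := hxV b
        have h10 := hxV c
        rw [ind_apply_mem ha.1] at h8
        rw [ind_apply_mem hb.1] at h9
        rw [ind_apply_mem hc.1] at h10
        have h11 := hVw a ha.1
        have h12 := hVw b hb.1
        have h13 := hVw c hc.1
        omega
    · push Not at h4
      obtain ⟨e, he⟩ := hne
      have h5 := two_le_wt x he (h4 e he) (hp.ne e).symm
      have h6 := hxV e
      have h7 := hxV (s e)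
      have h8 := hV.ind_add e
      have h9 := h.hole.sum e
      omega
  obtain ⟨Q, hQ, hQc⟩ := h.pack (x := x) (k := g - 1) (by omega) hxcov
  refine h.hole.no ⟨V ::ₘ Q, ⟨?_, fun f => ?_⟩, ?_⟩
  · intro A hA
    rcases Multiset.mem_cons.mp hA with rfl | hA
    · exact hVC
    · exact hQ.1 A hA
  · show tot (V ::ₘ Q) f ≤ w f
    rw [tot_cons]
    have h1 : tot Q f ≤ x f := hQ.2 f
    have h2 := hxV f
    omega
  · rw [Multiset.card_cons]
    omega

end Pool.Agent.CUB
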