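import Pool.Agent.CUB.Raise

namespace Pool.Agent.CUB

open Finset Pool.Agent.MFM

set_option linter.unusedSectionVars false

variable {E : Type*} [DecidableEq E] [Fintype E]
variable {C : Finset (Finset E)} {s : E → E}

/-- The elements of weight one. -/
def ones (w : E → ℕ) : Finset E := Finset.univ.filter (fun e => w e = 1)

theorem mem_ones {w : E → ℕ} {e : E} : e ∈ ones w ↔ w e = 1 := by
  unfold ones
  rw [Finset.mem_filter]
  exact ⟨fun h => h.2, fun h => ⟨Finset.mem_univ _, h⟩⟩

/-- A member containing an element of weight one contains more than `g` of them. -/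
theorem Crit.ones_card (hmin : MinNonMFMC C) (hp : Paired C s) {w : E → ℕ} {g : ℕ}
    (h : Crit C s w g) {x : E} (hx : w x = 1) {N : Finset E} (hN : N ∈ C) (hxN : x ∈ N) :
    g + 1 ≤ (N ∩ ones w).card := by
  have hpos := h.hole.pos hmin
  have h3 := h.three
  obtain ⟨P, hP, hc, hPw⟩ := con_pack hmin (w := w) (k := g) (e := s x)
    (fun B hB _ => h.hole.cov B hB)
  have hsx : x ≠ s x := (hp.ne x).symm
  have hpair := tot_pair hp hP
  have hx0 : tot P x = 0 := by
    by_contra h1
    have h2 := hPw x hsx
    have h4 := hpair x
    have h5 := h.hole.sum x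
    refine h.hole.no ⟨P, ⟨hP, fun f => ?_⟩, hc⟩
    by_cases hf : f = s x
    · subst hf
      show tot P (s x) ≤ w (s x)
      omega
    · exact hPw f hf
  have hother : ∀ f, f ≠ x → f ≠ s x → tot P f = w f := by
    intro f hf1 hf2
    have h1 := hPw f hf2
    have h2 := hPw (s f) (by
      intro h4
      apply hf1
      rw [← hp.invol f, h4, hp.invol])
    have h4 := hpair f
    have h5 := h.hole.sum f
    omega
  have hsxN : s x ∉ N := (hp.mem N hN x).mp hxN
  -- every member of `P` meets `N` in an element of weight one
  have hmeet : ∀ M ∈ P, (M ∩ ((N ∩ ones w).erase x)).Nonempty := by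
    intro M hM
    obtain ⟨A, rfl⟩ := Multiset.exists_cons_of_mem hM
    rw [Multiset.card_cons] at hc
    have hMC : M ∈ C := hP M (Multiset.mem_cons_self M A)
    have hAC : ∀ B ∈ A, B ∈ C := fun B hB => hP B (Multiset.mem_cons_of_mem hB)
    have hxM : x ∉ M := by
      intro h1
      have h2 := tot_cons M A x
      rw [hx0, ind_apply_mem h1] at h2
      omega
    have hsxM : s x ∈ M := by
      by_contra h1
      exact hxM ((hp.mem M hMC x).mpr h1)
    set y : E → ℕ := fun f => w f - ind M f with hy
    have hyw : ∀ f, y f + ind M f = w f := by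
      intro f
      have h1 := hpos f
      have h2 := ind_le_one M f
      simp only [hy]
      omega
    have hbad : ∃ T, IsCover C T ∧ wt y T < g - 1 := by
      by_contra h1
      push Not at h1
      obtain ⟨Q, hQ, hQc⟩ := h.pack (x := y) (k := g - 1) (by omega) h1
      refine h.hole.no ⟨M ::ₘ Q, ⟨?_, fun f => ?_⟩, ?_⟩
      · intro B hB
        rcases Multiset.mem_cons.mp hB with rfl | hB
        · exact hMC
        · exact hQ.1 B hB
      · show tot (M ::ₘ Q) f ≤ w f
        rw [tot_cons]
        have h2 : tot Q f ≤ y f := hQ.2 f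
        have h4 := hyw f
        omega
      · rw [Multiset.card_cons]
        omega
    obtain ⟨T, hT, hTy⟩ := hbad
    have hA1 : ∀ f, f ≠ s x → tot A f ≤ y f := by
      intro f hf
      have h1 := tot_cons M A f
      have h2 := hPw f hf
      have h4 := hyw f
      omega
    have hAsx : tot A (s x) = y (s x) + 1 := by
      have h1 := tot_cons M A (s x)
      have h2 := hpair x
      rw [hx0, Multiset.card_cons] at h2
      have h4 := hyw (s x)
      have h5 := h.hole.sum x
      omega
    have hysx : y (s x) = g - 2 := by
      have h4 := hyw (s x)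
      rw [ind_apply_mem hsxM] at h4
      have h5 := h.hole.sum x
      omega
    have hwt : Multiset.card A ≤ wt (tot A) T := wt_tot (F := C) hT A hAC
    have hsxT : s x ∈ T := by
      by_contra h1
      have h2 : wt (tot A) T ≤ wt y T := by
        unfold wt
        refine Finset.sum_le_sum (fun f hf => hA1 f ?_)
        rintro rfl
        exact h1 hf
      omega
    have hxT : x ∉ T := by
      intro h1
      have h2 : wt (tot A) T + 1 ≤ wt y T + 1 := by
        have h4 : tot A x = 0 := by
          have h5 := tot_cons M A x
          omega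
        have h5 : y x = 1 := by
          have h6 := hyw x
          rw [ind_apply_not_mem hxM] at h6
          omega
        have h6 : tot A (s x) + wt (tot A) (T.erase (s x)) = wt (tot A) T :=
          Finset.add_sum_erase T (tot A) hsxT
        have h7 : y (s x) + wt y (T.erase (s x)) = wt y T :=
          Finset.add_sum_erase T y hsxT
        have hxT' : x ∈ T.erase (s x) := Finset.mem_erase.mpr ⟨hsx, h1⟩
        have h8 : tot A x + wt (tot A) ((T.erase (s x)).erase x) = wt (tot A) (T.erase (s x)) :=
          Finset.add_sum_erase _ (tot A) hxT'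
        have h9 : y x + wt y ((T.erase (s x)).erase x) = wt y (T.erase (s x)) :=
          Finset.add_sum_erase _ y hxT'
        have h10 : wt (tot A) ((T.erase (s x)).erase x) ≤ wt y ((T.erase (s x)).erase x) := by
          unfold wt
          refine Finset.sum_le_sum (fun f hf => hA1 f ?_)
          rintro rfl
          exact absurd hf (by simp)
        omega
      omega
    have hzero : ∀ t ∈ T, t ≠ s x → y t = 0 := by
      intro t ht hts
      have h1 := two_le_wt y hsxT ht (Ne.symm hts)
      have h6 : tot A (s x) + wt (tot A) (T.erase (s x)) = wt (tot A) T :=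
        Finset.add_sum_erase T (tot A) hsxT
      omega
    obtain ⟨t, ht⟩ := hT N hN
    rw [Finset.mem_inter] at ht
    have hts : t ≠ s x := by
      rintro rfl
      exact hsxN ht.1
    have h1 := hzero t ht.2 hts
    have h2 := hyw t
    have h4 := hpos t
    have h5 := ind_le_one M t
    have htM : t ∈ M := mem_of_ind (by omega)
    refine ⟨t, Finset.mem_inter.mpr ⟨htM, Finset.mem_erase.mpr ⟨?_, ?_⟩⟩⟩
    · rintro rfl
      exact hxT ht.2
    · exact Finset.mem_inter.mpr ⟨ht.1, mem_ones.mpr (by omega)⟩
  have h1 := wt_tot (F := P.toFinset) (D := (N ∩ ones w).erase x)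
    (fun A hA => hmeet A (Multiset.mem_toFinset.mp hA)) P
    (fun A hA => Multiset.mem_toFinset.mpr hA)
  have h2 : wt (tot P) ((N ∩ ones w).erase x) ≤ ((N ∩ ones w).erase x).card := by
    unfold wt
    rw [Finset.card_eq_sum_ones]
    refine Finset.sum_le_sum (fun f hf => ?_)
    rw [Finset.mem_erase, Finset.mem_inter, mem_ones] at hf
    have h4 := hPw f (by
      rintro rfl
      exact hsxN hf.2.1)
    omega
  have h4 : x ∈ N ∩ ones w := Finset.mem_inter.mpr ⟨hxN, mem_ones.mpr hx⟩
  rw [Finset.card_erase_of_mem h4] at h2
  have h5 : 0 < (N ∩ ones w).card := Finset.card_pos.mpr ⟨x, h4⟩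
  omega

end Pool.Agent.CUB
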